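import Pool.Agent.MP_6a4325_al.H84.Spec3

/-! The fixed vectors of a subgroup in the regular representation. -/

set_option autoImplicit false

namespace Pool.Agent.MP_6a4325_al.H1

open Pool.Agent.MP_6a4325_al.H62 Pool.Agent.MP_6a4325_al.H84 Module

namespace Fix3

variable {k L : Type} [Field k] [Group L]

/-- the vectors fixed by `E` -/
def fix (E : Subgroup L) {M : Type} [AddCommGroup M] [Module k M] (ρ : Representation k L M) :
    Submodule k M where
  carrier := {u | ∀ e ∈ E, ρ e u = u}
  add_mem' := fun a b e he => by rw [map_add, a e he, b e he]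
  zero_mem' := fun e _ => map_zero _
  smul_mem' := fun c u a e he => by rw [map_smul, a e he]

theorem map_fix (E : Subgroup L) {M N : Type} [AddCommGroup M] [Module k M] [AddCommGroup N]
    [Module k N] {ρ : Representation k L M} {σ : Representation k L N} {f : M →ₗ[k] N}
    (h : Eqv (MonoidHom.id L) ρ σ f) : ∀ u ∈ fix E ρ, f u ∈ fix E σ := fun u hu e he =>
  (h e u).symm.trans (congrArg f (hu e he))

theorem sub (E : Subgroup L) {M₁ M M₂ : Type} [AddCommGroup M₁] [Module k M₁] [AddCommGroup M]
    [Module k M] [AddCommGroup M₂] [Module k M₂] {ρ₁ : Representation k L M₁}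
    {ρ : Representation k L M} {ρ₂ : Representation k L M₂} [FiniteDimensional k M]
    (h : Ses ρ₁ ρ ρ₂) : finrank k (fix E ρ) ≤ finrank k (fix E ρ₁) + finrank k (fix E ρ₂) := by
  obtain ⟨f, g, hf, hg, e, h1, h2⟩ := h
  have := Module.Finite.of_injective f hf
  have := Module.Finite.of_surjective g hg
  let f' := f.restrict (map_fix E h1)
  let g' := g.restrict (map_fix E h2)
  have h3 : LinearMap.ker g' ≤ LinearMap.range f' := by
    intro u hu
    have h4 : u.1 ∈ LinearMap.range f := by
      rw [e]
      exact congrArg Subtype.val (LinearMap.mem_ker.1 hu)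
    obtain ⟨v, hv⟩ := h4
    exact ⟨⟨v, fun a ha => hf (by rw [h1 a v, hv]; exact u.2 a ha)⟩, Subtype.ext hv⟩
  have h5 := LinearMap.finrank_range_add_finrank_ker g'
  have h6 := Submodule.finrank_mono h3
  have h7 := LinearMap.finrank_range_le f'
  have h8 := Submodule.finrank_le (LinearMap.range g')
  omega

theorem low [Finite L] (E : Subgroup L) : Nat.card (L ⧸ E) ≤ finrank k (fix E (reg k L)) := by
  have := Fintype.ofFinite (L ⧸ E)
  let φ : ((L ⧸ E) → k) →ₗ[k] (L → k) := LinearMap.funLeft k k QuotientGroup.mk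
  have h1 : ∀ u, φ u ∈ fix E (reg k L) := fun u e he => funext fun x =>
    congrArg u (QuotientGroup.mk_mul_of_mem x he)
  have h2 : Function.Injective (φ.codRestrict _ h1) := fun a b h =>
    LinearMap.funLeft_injective_of_surjective k k _ QuotientGroup.mk_surjective
      (congrArg Subtype.val h)
  have h3 := LinearMap.finrank_le_finrank_of_injective h2
  rwa [finrank_fintype_fun_eq_card, ← Nat.card_eq_fintype_card] at h3

end Fix3

open Fix3

theorem sfix : SIndP → SFix := by
  intro hI k L _ _ _ E D s hF hA hS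
  have h := hI k L (fun M _ _ ρ => finrank k (fix E ρ) ≤ s M ρ)
    (fun M _ _ ρ _ => by rw [finrank_zero_of_subsingleton]; exact Nat.zero_le _)
    (fun M _ _ ρ _ hρ => by
      by_cases h0 : fix E ρ = ⊥
      · rw [h0, finrank_bot]; exact Nat.zero_le _
      · obtain ⟨t, ht, t0⟩ := Submodule.exists_mem_ne_zero_of_ne_bot h0
        rw [(hS M ρ inferInstance hρ).1 (hF M ρ hρ t t0 ht).2]
        exact Submodule.finrank_le _)
    (fun M₁ M M₂ _ _ _ _ _ _ ρ₁ ρ ρ₂ hM h a b => by
      rw [hA M₁ M M₂ ρ₁ ρ ρ₂ hM h]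
      exact (sub E h).trans (add_le_add a b))
    (L → k) (reg k L) inferInstance
  rw [Subgroup.card_eq_card_quotient_mul_card_subgroup E, mul_comm]
  exact Nat.mul_le_mul_left _ ((low E).trans h)

end Pool.Agent.MP_6a4325_al.H1
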