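import Pool.Agent.MP_6a4325_al.H62.Base2

/-! Row HNN: no strictly ascending HNN extensions. -/

set_option autoImplicit false

namespace Pool.Agent.MP_6a4325_al.H1

open H62 MonoidAlgebra
open Matrix hiding single

variable {p : ℕ} [Fact p.Prime] {G : Type} [Group G]

/-- right translation of functions -/
def rT (F : Type) [Field F] (G : Type) [Group G] : G →* Module.End F (G → F) where
  toFun h := LinearMap.funLeft F F (· * h)
  map_one' := LinearMap.ext fun f => funext fun g => by simp [LinearMap.funLeft_apply]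
  map_mul' h h' := LinearMap.ext fun f => funext fun g => by
    simp [LinearMap.funLeft_apply, mul_assoc]

/-- a finite quotient of the module generated by finitely many functions, given by its graph -/
theorem fsol (hS : SSpecF) (hG : Group.FG G) (hW : W (ZMod p) G) {m : ℕ}
    (φ : Fin m → G → ZMod p) (hφ : φ ≠ 0) :
    ∃ (U : Type) (_ : AddCommGroup U) (_ : Module (ZMod p) U) (ρ : G →* Module.End (ZMod p) U)
      (P : Submodule (ZMod p) ((G → ZMod p) × U)) (v : Fin m → U), v ≠ 0 ∧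
      (∀ i, (φ i, v i) ∈ P) ∧ (∀ h ψ w, (ψ, w) ∈ P → (fun g => ψ (g * h), ρ h w) ∈ P) ∧
      (∀ w, (0, w) ∈ P → w = 0) ∧ {w | ∃ ψ, (ψ, w) ∈ P}.Finite ∧
      ∀ g, ∃ N, 0 < N ∧ ρ (g ^ N) = 1 := by
  classical
  let lf := MonoidAlgebra.lift (ZMod p) (Module.End (ZMod p) (G → ZMod p)) G (rT (ZMod p) G)
  let A : (Fin m → MonoidAlgebra (ZMod p) G) → G → ZMod p := fun x => ∑ i, lf (x i) (φ i)
  have Aadd : ∀ x y, A (x + y) = A x + A y := fun x y => by
    simp only [A, Pi.add_apply, map_add, LinearMap.add_apply, Finset.sum_add_distrib]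
  have Asmul : ∀ (c : MonoidAlgebra (ZMod p) G) x, A (c • x) = lf c (A x) := fun c x => by
    simp only [A, Pi.smul_apply, smul_eq_mul, map_mul, Module.End.mul_apply, map_sum]
  have Aone : ∀ i, A (Pi.single i 1) = φ i := fun i => by
    simp only [A]
    rw [Finset.sum_eq_single i (fun j _ hj => by simp [hj]) (by simp)]
    simp
  let L : Submodule (MonoidAlgebra (ZMod p) G) (Fin m → MonoidAlgebra (ZMod p) G) :=
    { carrier := {x | A x = 0}
      add_mem' := fun {x y} hx hy => by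
        simp only [Set.mem_ofPred_eq] at hx hy ⊢
        rw [Aadd, hx, hy, add_zero]
      zero_mem' := by simp [A]
      smul_mem' := fun c x hx => by
        simp only [Set.mem_ofPred_eq] at hx ⊢
        rw [Asmul, hx, map_zero] }
  obtain ⟨K, _, _, _, n, ρ₀, v₀, hv₀, h₀⟩ := hW m L fun e => hφ (funext fun i => by
    rw [← Aone]
    exact (show Pi.single i 1 ∈ L from e ▸ Submodule.mem_top))
  obtain ⟨ρ, v, hv, hfin, h₁⟩ := hS p G hG K n m ρ₀ v₀ hv₀
  let B : (Fin m → MonoidAlgebra (ZMod p) G) → Fin n → Kp p :=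
    fun y => ∑ i, act (ZMod p) ρ (y i) *ᵥ v i
  have Badd : ∀ y z, B (y + z) = B y + B z := fun y z => by
    simp only [B, Pi.add_apply, map_add, add_mulVec, Finset.sum_add_distrib]
  have Bsmul : ∀ (c : MonoidAlgebra (ZMod p) G) y, B (c • y) = act (ZMod p) ρ c *ᵥ B y :=
    fun g y => by simp only [B, Pi.smul_apply, smul_eq_mul, map_mul, mulVec_sum, mulVec_mulVec]
  have Bone : ∀ i, B (Pi.single i 1) = v i := fun i => by
    simp only [B]
    rw [Finset.sum_eq_single i (fun j _ hj => by simp [hj]) (by simp)]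
    simp
  let τ : G →* Module.End (ZMod p) (Fin n → Kp p) :=
    { toFun := fun g => (Matrix.mulVecLin (ρ g)).restrictScalars (ZMod p)
      map_one' := LinearMap.ext fun w => by simp
      map_mul' := fun g h => LinearMap.ext fun w => by simp }
  let P : Submodule (ZMod p) ((G → ZMod p) × (Fin n → Kp p)) :=
    { carrier := {z | ∃ x, z = (A x, B x)}
      add_mem' := by
        rintro _ _ ⟨x, rfl⟩ ⟨y, rfl⟩
        exact ⟨x + y, by rw [Aadd, Badd]; rfl⟩
      zero_mem' := ⟨0, Prod.ext (by simp [A]) (by simp [B])⟩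
      smul_mem' := by
        rintro c _ ⟨x, rfl⟩
        refine ⟨single (1 : G) c • x, ?_⟩
        rw [Asmul, Bsmul, act_single, lift_single, map_one, map_one, smul_mulVec, one_mulVec]
        rfl }
  refine ⟨Fin n → Kp p, inferInstance, inferInstance, τ, P, v, hv,
    fun i => ⟨Pi.single i 1, by rw [Aone, Bone]⟩, ?_, ?_, ?_, fun g => ?_⟩
  · rintro h ψ w ⟨x, hx⟩
    obtain ⟨rfl, rfl⟩ := Prod.ext_iff.1 hx
    refine ⟨single h (1 : ZMod p) • x, ?_⟩
    rw [Asmul, Bsmul, act_single_one, lift_single, one_smul]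
    rfl
  · rintro w ⟨x, hx⟩
    obtain ⟨e, rfl⟩ := Prod.ext_iff.1 hx
    exact h₁ x (h₀ x e.symm)
  · let S : Set (Fin n → Kp p) := Set.image2 (fun a i => a *ᵥ v i) (Set.range ρ) Set.univ
    have hS' : S.Finite := hfin.image2 _ Set.finite_univ
    have := Module.Finite.span_of_finite (ZMod p) hS'
    have h2 : Finite (Submodule.span (ZMod p) S) := Module.finite_of_finite (ZMod p)
    refine (Set.toFinite (Submodule.span (ZMod p) S : Set (Fin n → Kp p))).subset ?_
    rintro w ⟨ψ, x, hx⟩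
    obtain rfl : w = B x := (Prod.ext_iff.1 hx).2
    refine (Submodule.span (ZMod p) S).sum_mem (t := Finset.univ)
      (f := fun i => act (ZMod p) ρ (x i) *ᵥ v i) fun i _ => ?_
    induction x i using MonoidAlgebra.induction_linear with
    | zero => simp
    | add a b ha hb => rw [map_add, add_mulVec]; exact add_mem ha hb
    | single a c =>
      rw [act_single, smul_mulVec]
      exact Submodule.smul_mem _ c (Submodule.subset_span ⟨_, ⟨a, rfl⟩, i, trivial, rfl⟩)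
  · obtain ⟨a, b, hab, e⟩ := hfin.exists_lt_map_eq_of_forall_mem
      (f := fun j : ℕ => ρ (g ^ j)) fun j => Set.mem_range_self _
    refine ⟨b - a, by omega, LinearMap.ext fun w => ?_⟩
    have e2 : ρ (g ^ (b - a)) = 1 := by
      rw [pow_sub g hab.le, map_mul, ← e, ← map_mul, mul_inv_cancel, map_one]
    change ρ (g ^ (b - a)) *ᵥ w = w
    rw [e2, one_mulVec]

theorem pow_conj {E : Subgroup G} {σ : G} (hσ : ∀ e ∈ E, σ * e * σ⁻¹ ∈ E) (j : ℕ) :
    ∀ e ∈ E, σ ^ j * e * (σ ^ j)⁻¹ ∈ E := fun e he => by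
  induction j with
  | zero => simpa using he
  | succ j ih =>
    have := hσ _ ih
    rwa [show σ * (σ ^ j * e * (σ ^ j)⁻¹) * σ⁻¹ = σ ^ (j + 1) * e * (σ ^ (j + 1))⁻¹ by group]
      at this

/-- the contradiction obtained from a function with one more equation -/
theorem key (hS : SSpecF) (hG : Group.FG G) (hW : W (ZMod p) G) {E : Subgroup G} {σ : G}
    (hσ : ∀ e ∈ E, σ * e * σ⁻¹ ∈ E) (φ : G → ZMod p) (hφ : φ ≠ 0)
    (hD : ∀ e ∈ E, ∀ g, φ (g * (σ * e * σ⁻¹)) = φ g) {ι : Type} [Fintype ι] (r : ι → G)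
    (hr : ∀ q, r q ∈ E) (c : ZMod p) (c0 : c ≠ 0) (h : G)
    (hs : ∀ g, ∑ q, (φ (g * r q) - φ g) = c * φ (g * h)) : False := by
  obtain ⟨U, _, _, ρ, P, v, hv, h1, h2, h3, -, h4⟩ := fsol hS hG hW (fun _ : Fin 1 => φ)
    fun e => hφ (congrFun e 0)
  obtain ⟨N, hN, h4⟩ := h4 σ
  obtain ⟨N, rfl⟩ : ∃ M, N = M + 1 := ⟨N - 1, by omega⟩
  have h5 : ∀ e ∈ E, ρ e (v 0) = v 0 := fun e he => by
    have e1 : ρ e = ρ (σ * (σ ^ N * e * (σ ^ N)⁻¹) * σ⁻¹) := by
      have h6 : ρ (σ ^ (N + 1))⁻¹ = 1 := ρ.ker.inv_mem h4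
      rw [show σ * (σ ^ N * e * (σ ^ N)⁻¹) * σ⁻¹ = σ ^ (N + 1) * e * (σ ^ (N + 1))⁻¹ by group,
        map_mul, map_mul, h4, h6, one_mul, mul_one]
    have h7 := P.sub_mem (h2 (σ * (σ ^ N * e * (σ ^ N)⁻¹) * σ⁻¹) _ _ (h1 0)) (h1 0)
    rw [← e1, funext (hD _ (pow_conj hσ N e he)), Prod.mk_sub_mk, sub_self] at h7
    exact sub_eq_zero.1 (h3 _ h7)
  have h8 : ((fun g => c * φ (g * h)), (0 : U)) ∈ P := by
    have := P.sum_mem (t := Finset.univ) fun q _ => P.sub_mem (h2 (r q) _ _ (h1 0)) (h1 0)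
    refine (congrArg (· ∈ P) (Prod.ext (funext fun g => ?_) ?_)).mp this
    · rw [Prod.fst_sum, Finset.sum_apply]
      exact hs g
    · rw [Prod.snd_sum]
      exact Finset.sum_eq_zero fun q _ => sub_eq_zero.2 (h5 _ (hr q))
  have h9 := P.sub_mem (P.smul_mem c (h2 h _ _ (h1 0))) h8
  rw [Prod.smul_mk, Prod.mk_sub_mk, sub_zero, show (c • fun g => φ (g * h)) =
    fun g => c * φ (g * h) from rfl, sub_self] at h9
  have h10 := (smul_eq_zero.1 (h3 _ h9)).resolve_left c0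
  refine hv (funext fun i => ?_)
  rw [Subsingleton.elim i 0, ← rep_inv ρ h (v 0), h10, map_zero]
  rfl

/-- an intermediate proper subgroup of finite index -/
theorem mid (hS : SSpecF) (hG : Group.FG G) (hW : W (ZMod p) G) {E : Subgroup G} {σ : G}
    {T : Finset G} (hE : E = Subgroup.closure (↑T ∪ (fun e => σ * e * σ⁻¹) '' (E : Set G)))
    {e₀ : G} (he₀ : e₀ ∈ E) (hn : σ⁻¹ * e₀ * σ ∉ E) :
    ∃ D : Subgroup G, (∀ e ∈ E, σ * e * σ⁻¹ ∈ D) ∧ D ≤ E ∧ (∃ e ∈ E, e ∉ D) ∧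
      Finite (E ⧸ D.subgroupOf E) := by
  classical
  let s : Fin T.card → G := fun i => (T.equivFin.symm i : G)
  have hs : ∀ x ∈ (T : Set G), ∃ i, s i = x := fun x hx => ⟨T.equivFin ⟨x, hx⟩, by simp [s]⟩
  let φ : G → ZMod p := fun g => if σ⁻¹ * g * σ ∈ E then 1 else 0
  let δ : G → G → ZMod p := fun e g => φ (g * e) - φ g
  have δD : ∀ e ∈ E, δ (σ * e * σ⁻¹) = 0 := fun e he => funext fun g => by
    simp only [δ, φ, Pi.zero_apply]
    rw [show σ⁻¹ * (g * (σ * e * σ⁻¹)) * σ = σ⁻¹ * g * σ * e by group]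
    simp only [E.mul_mem_cancel_right he, sub_self]
  have δmul : ∀ a b, δ (a * b) = (fun g => δ b (g * a)) + δ a := fun a b => funext fun g => by
    simp only [δ, Pi.add_apply, mul_assoc, sub_add_sub_cancel]
  have δinv : ∀ a, δ a⁻¹ = -fun g => δ a (g * a⁻¹) := fun a => funext fun g => by
    simp only [δ, Pi.neg_apply, inv_mul_cancel_right, neg_sub]
  have gen : ∀ {Q : G → Prop}, (∀ i, Q (s i)) → (∀ e ∈ E, Q (σ * e * σ⁻¹)) →
      (∀ a b, Q a → Q b → Q (a * b)) → (∀ a, Q a → Q a⁻¹) → ∀ e ∈ E, Q e := by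
    intro Q h1 h2 h3 h4 e he
    rw [hE] at he
    induction he using Subgroup.closure_induction with
    | mem x hx =>
      rcases hx with hx | ⟨y, hy, rfl⟩
      · obtain ⟨i, rfl⟩ := hs x hx
        exact h1 i
      · exact h2 y hy
    | one => simpa using h2 1 E.one_mem
    | mul a b _ _ ha hb => exact h3 a b ha hb
    | inv a _ ha => exact h4 a ha
  obtain ⟨U, _, _, ρ, P, v, hv, h1, h2, h3, h4, -⟩ := fsol hS hG hW (fun i => δ (s i)) fun e => by
    have := gen (Q := fun a => δ a = 0) (congrFun e) δD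
      (fun a b ha hb => by rw [δmul, ha, hb]; exact add_zero _)
      (fun a ha => by rw [δinv, ha]; exact neg_zero) e₀ he₀
    simpa [δ, φ, hn, E.one_mem] using congrFun this 1
  have hβ : ∀ e ∈ E, ∃ w, (δ e, w) ∈ P :=
    gen (fun i => ⟨_, h1 i⟩) (fun e he => ⟨0, by rw [δD e he]; exact P.zero_mem⟩)
      (fun a b ⟨w, ha⟩ ⟨u, hb⟩ => ⟨_, by rw [δmul]; exact P.add_mem (h2 a _ _ hb) ha⟩)
      (fun a ⟨w, ha⟩ => ⟨_, by rw [δinv]; exact P.neg_mem (h2 a⁻¹ _ _ ha)⟩)
  choose! β hβ using hβ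
  let D : Subgroup G :=
    { carrier := {a | (δ a, 0) ∈ P}
      mul_mem' := fun {a b} ha hb => by
        have := P.add_mem (h2 a _ _ hb) ha
        rwa [Prod.mk_add_mk, map_zero, add_zero, ← δmul] at this
      one_mem' := by
        have := δD 1 E.one_mem
        rw [mul_one, mul_inv_cancel] at this
        change (δ 1, 0) ∈ P
        rw [this]
        exact P.zero_mem
      inv_mem' := fun {a} ha => by
        have := P.neg_mem (h2 a⁻¹ _ _ ha)
        rwa [Prod.neg_mk, map_zero, neg_zero, ← δinv] at this }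
  have hT : ∀ e ∈ E, σ * e * σ⁻¹ ∈ E := fun e he => by
    rw [hE]
    exact Subgroup.subset_closure (Or.inr ⟨e, he, rfl⟩)
  refine ⟨D ⊓ E, fun e he => ⟨?_, hT e he⟩, inf_le_right, ?_, ?_⟩
  · change (δ _, 0) ∈ P
    rw [δD e he]
    exact P.zero_mem
  · obtain ⟨i, hi⟩ := Function.ne_iff.1 hv
    refine ⟨s i, ?_, fun h => hi (h3 _ ?_)⟩
    · rw [hE]
      exact Subgroup.subset_closure (Or.inl (T.equivFin.symm i).2)
    · have := P.sub_mem (h1 i) h.1
      rwa [Prod.mk_sub_mk, sub_self, sub_zero] at this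
  · refine Set.finite_univ_iff.1 (Set.Finite.of_finite_image (f := fun q => β (q.out : E))
      (h4.subset ?_) fun q _ q' _ e => ?_)
    · rintro _ ⟨q, -, rfl⟩
      exact ⟨_, hβ _ q.out.2⟩
    · rw [← q.out_eq', ← q'.out_eq', QuotientGroup.eq]
      refine ⟨?_, (q.out⁻¹ * q'.out).2⟩
      have h5 := P.sub_mem (h2 (q.out : G)⁻¹ _ _ (hβ _ q'.out.2)) (h2 (q.out : G)⁻¹ _ _
        (hβ _ q.out.2))
      beta_reduce at e
      rw [e, Prod.mk_sub_mk, sub_self, sub_eq_add_neg, ← δinv, ← δmul] at h5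
      exact h5

theorem hnn : SSpecF → SHNN := by
  classical
  intro hS p _ G _ hG hW E σ T hσ hE e₀ he₀
  by_contra hn
  obtain ⟨D, hD, hDE, ⟨e₁, he₁, hn₁⟩, hfin⟩ := mid hS hG hW hE he₀ hn
  have := Fintype.ofFinite (E ⧸ D.subgroupOf E)
  let r : E ⧸ D.subgroupOf E → G := fun q => (q.out : E)
  have hr : ∀ q, r q ∈ E := fun q => q.out.2
  have hu : ∀ e ∈ E, ∃ q₀, ∀ q, e * r q ∈ D ↔ q = q₀ := fun e he =>
    ⟨QuotientGroup.mk (⟨e, he⟩⁻¹ : E), fun q => by
      conv_rhs => rw [← q.out_eq', eq_comm, QuotientGroup.eq, inv_inv]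
      rfl⟩
  by_cases hd : (Fintype.card (E ⧸ D.subgroupOf E) : ZMod p) = 0
  · have hinj : Function.Injective fun j : ℕ => (QuotientGroup.mk (σ ^ j)⁻¹ : G ⧸ E) := by
      refine Function.Injective.of_lt_imp_ne fun a b hab e => hn ?_
      obtain ⟨j, rfl⟩ : ∃ j, b = a + (j + 1) := ⟨b - a - 1, by omega⟩
      have h1 : (σ ^ (j + 1))⁻¹ ∈ E := by
        have := QuotientGroup.eq.1 e
        rwa [show (σ ^ a)⁻¹⁻¹ * (σ ^ (a + (j + 1)))⁻¹ = (σ ^ (j + 1))⁻¹ by group] at this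
      have h2 := pow_conj hσ j _ (E.mul_mem (E.mul_mem h1 he₀) (E.inv_mem h1))
      rwa [show σ ^ j * ((σ ^ (j + 1))⁻¹ * e₀ * (σ ^ (j + 1))⁻¹⁻¹) * (σ ^ j)⁻¹ = σ⁻¹ * e₀ * σ by
        group] at h2
    let s : G ⧸ E → G := Function.extend (fun j : ℕ => (QuotientGroup.mk (σ ^ j)⁻¹ : G ⧸ E))
      (fun j => (σ ^ j)⁻¹) Quotient.out
    have s1 : ∀ j : ℕ, s (QuotientGroup.mk (σ ^ j)⁻¹) = (σ ^ j)⁻¹ := fun j =>
      hinj.extend_apply _ _ j
    have s2 : ∀ u : G, (s (QuotientGroup.mk u))⁻¹ * u ∈ E := fun u => by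
      rw [← QuotientGroup.eq]
      by_cases h : ∃ j : ℕ, (QuotientGroup.mk (σ ^ j)⁻¹ : G ⧸ E) = QuotientGroup.mk u
      · obtain ⟨j, h⟩ := h
        rw [← h, s1]
      · rw [show s (QuotientGroup.mk u) = _ from Function.extend_apply' _ _ _ h]
        exact QuotientGroup.out_eq' _
    let C : G → Prop := fun u => (s (QuotientGroup.mk u))⁻¹ * u ∈ D
    have c1 : ∀ u, ∀ e ∈ E, C (u * e) ↔ (s (QuotientGroup.mk u))⁻¹ * u * e ∈ D := fun u e he => by
      simp only [C]
      rw [QuotientGroup.mk_mul_of_mem u he, mul_assoc]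
    have c2 : ∀ u, ∀ d ∈ D, C (u * d) ↔ C u := fun u d hd => by
      rw [c1 u d (hDE hd), D.mul_mem_cancel_right hd]
    have c3 : ∀ u, ∀ e ∈ E, ∀ j : ℕ, C (u * e * (σ ^ (j + 1))⁻¹) ↔ C (u * σ⁻¹ * (σ ^ j)⁻¹) :=
      fun u e he j => by
        rw [← c2 (u * σ⁻¹ * (σ ^ j)⁻¹) _ (hD _ (pow_conj hσ j e he))]
        exact iff_of_eq (congrArg C (by group))
    let φ : G → ZMod p := fun u => if ∀ j : ℕ, C (u * (σ ^ j)⁻¹) then 1 else 0
    have c4 : ∀ u, ∀ e ∈ E, φ (u * e) = if C (u * e) then φ (u * σ⁻¹) else 0 := fun u e he => by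
      simp only [φ]
      rw [← ite_and]
      refine if_congr ?_ rfl rfl
      rw [← Nat.and_forall_add_one, pow_zero, inv_one, mul_one]
      exact and_congr_right fun _ => forall_congr' (c3 u e he)
    refine key hS hG hW hσ φ (fun e => ?_) (fun e he g => ?_) r hr 1 one_ne_zero σ⁻¹ fun g => ?_
    · have h1 : φ 1 = 1 := if_pos fun j => by
        simp only [C]
        rw [one_mul, s1, inv_mul_cancel]
        exact D.one_mem
      rw [e] at h1
      exact zero_ne_one h1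
    · have h1 := c4 g 1 E.one_mem
      rw [mul_one] at h1
      rw [c4 g _ (hσ e he), h1]
      exact if_congr (c2 g _ (hD e he)) rfl rfl
    · obtain ⟨q₀, hq⟩ := hu _ (s2 g)
      rw [Finset.sum_sub_distrib, Finset.sum_const, Finset.card_univ, nsmul_eq_mul, hd, zero_mul,
        sub_zero, one_mul]
      simp only [fun q => c4 g _ (hr q), fun q => c1 g _ (hr q), hq]
      simp
  · let φ : G → ZMod p := fun u =>
      (if u ∈ D then (Fintype.card (E ⧸ D.subgroupOf E) : ZMod p) else 0) - if u ∈ E then 1 else 0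
    refine key hS hG hW hσ φ (fun e => ?_) (fun e he g => ?_) r hr _ (neg_ne_zero.2 hd) 1
      fun g => ?_
    · simpa [φ, he₁, hn₁] using congrFun e e₁
    · simp only [φ, D.mul_mem_cancel_right (hD e he), E.mul_mem_cancel_right (hσ e he)]
    · rw [Finset.sum_sub_distrib, Finset.sum_const, Finset.card_univ, nsmul_eq_mul, mul_one,
        neg_mul, sub_eq_iff_eq_add, neg_add_cancel]
      simp only [φ, fun q => E.mul_mem_cancel_right (y := g) (hr q)]
      by_cases hg : g ∈ E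
      · obtain ⟨q₀, hq⟩ := hu g hg
        simp [hq, hg]
      · have : ∀ q, g * r q ∉ D := fun q h => hg ((E.mul_mem_cancel_right (hr q)).1 (hDE h))
        simp [this, hg]

end Pool.Agent.MP_6a4325_al.H1
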